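import Mathlib
import Pool.Agent.H4.Oa1

set_option autoImplicit false

namespace Pool.Agent.Results.MP_78978c_an.NotEqual

/-- `E` is a Riesz space (given its group, lattice and module structures). -/
def Riesz (E : Type) [AddCommGroup E] [Lattice E] [Module ℝ E] : Prop :=
  IsOrderedAddMonoid E ∧ PosSMulMono ℝ E

/-- Archimedean Riesz space -/
def Arch (F : Type) [AddCommGroup F] [Lattice F] : Prop :=
  ∀ a b : F, 0 ≤ a → (∀ n : ℕ, n • a ≤ b) → a = 0

variable {E F : Type} [AddCommGroup E] [Lattice E] [AddCommGroup F] [Lattice F]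

/-- orthogonally additive -/
def OA (T : E → F) : Prop := ∀ x y, |x| ⊓ |y| = 0 → T (x + y) = T x + T y

/-- `R` is the join of `S` and `T` among orthogonally additive maps -/
def IsJoin (S T R : E → F) : Prop :=
  OA R ∧ S ≤ R ∧ T ≤ R ∧ ∀ P, OA P → S ≤ P → T ≤ P → R ≤ P

/-- in every extension `J : F → G`, `J (R x)` is not the supremum of the `J (S u) + J (T v)` -/
def Fails (S T R : E → F) (x : E) : Prop :=
  ∀ (G : Type) [AddCommGroup G] [Lattice G] (J : F →+ G), (∀ a b, J a ≤ J b ↔ a ≤ b) →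
    ¬ IsLUB {z | ∃ u v, |u| ⊓ |v| = 0 ∧ x = u + v ∧ z = J (S u) + J (T v)} (J (R x))

open Pool.Agent.H4.Oa in
theorem result : ∃ (E F : Type) (_ : AddCommGroup E) (_ : Lattice E) (_ : Module ℝ E)
    (_ : AddCommGroup F) (_ : Lattice F) (_ : Module ℝ F) (S T R : E → F) (x : E),
    Riesz E ∧ Riesz F ∧ Arch F ∧ OA S ∧ OA T ∧ IsJoin S T R ∧ Fails S T R x := by
  refine ⟨E, F, _, _, _, _, _, _, S, 0, R, 1, ⟨inferInstance, inferInstance⟩,
    ⟨inferInstance, ⟨fun _ ha _ _ h q => mul_le_mul_of_nonneg_left (h q) ha⟩⟩, fun a b ha h => ?_, oS,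
    fun _ _ _ => (add_zero _).symm, ⟨oR, SR, R0, least⟩, fun G _ _ J hJ h => nolub (R 1) ⟨?_, ?_⟩⟩
  · refine ContinuousMap.ext fun q => le_antisymm (not_lt.1 fun c => ?_) (ha q)
    obtain ⟨n, hn⟩ := exists_lt_nsmul c (b q)
    exact hn.not_ge (h n q)
  · rintro _ ⟨u, v, a, b, rfl⟩
    exact (hJ _ _).1 (h.1 ⟨u, v, a, b, map_add J _ _⟩)
  · refine fun w hw => (hJ _ _).1 (h.2 ?_)
    rintro _ ⟨u, v, a, b, rfl⟩
    rw [← map_add]
    exact (hJ _ _).2 (hw ⟨u, v, a, b, rfl⟩)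

end Pool.Agent.Results.MP_78978c_an.NotEqual
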